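import Pool.Agent.AT6.Stmts2
import Pool.Agent.Helper25_KF.Idm
import Pool.Agent.Helper97_K9.NZA
import Pool.Agent.Helper28_AT8.LCL
import Pool.Agent.Helper41_AT3.NIL
import Pool.Agent.Helper17_AT8.OMI

/-!
# Squad AT6, module YEX: the element `y`
-/

open scoped BigOperators

noncomputable section

namespace Pool.Agent.PP.T6.H35

open Pool.Agent.Helper51_AWC Pool.Agent.Helper79_WRA Pool.Agent.PP Pool.Agent.PP.KF
open Pool.Agent.PP.K9 Pool.Agent.PP.K9.H97 Pool.Agent.PP.H75 Pool.Agent.PP.T3 Pool.Agent.PP.T2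
open Pool.Agent.PP.T8 (rd)

section abs

variable {F A : Type} [Field F] [Group A] [Finite A]

theorem dl_isCl_cent {x : A} (hx : x ∈ Subgroup.center A) : IsCl (dl F x) := by
  classical
  intro t g
  unfold dl
  have h : g * t * g⁻¹ = x ↔ t = x := by
    constructor
    · intro h
      have h1 := (Subgroup.mem_center_iff.1 hx) g
      have h2 : t = g⁻¹ * x * g := by rw [← h]; group
      rw [h2, mul_assoc, ← h1, inv_mul_cancel_left]
    · rintro rfl
      have h1 := (Subgroup.mem_center_iff.1 hx) g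
      rw [h1, mul_inv_cancel_right]
  by_cases h' : t = x
  · rw [if_pos (h.2 h'), if_pos h']
  · rw [if_neg (fun h1 => h' (h.1 h1)), if_neg h']

/-- the sum of the conjugates of a product with a class function -/
theorem tsm_mul_cl {Z : Subgroup A} {b : A → F} (hb : IsCl b) (d : A → F) :
    tsm Z (mulF b d) = mulF b (tsm Z d) := by
  classical
  have := Fintype.ofFinite (A ⧸ Z)
  have h1 : ∀ a : A → F, tsm Z a = ∑ q : A ⧸ Z, cj q.out a := by
    intro a
    funext g
    unfold tsm
    rw [finsum_eq_sum_of_fintype, Finset.sum_apply]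
  rw [h1, h1]
  apply ma_injective
  rw [ma_mul, ma_sum, ma_sum, Finset.mul_sum]
  refine Finset.sum_congr rfl fun q _ => ?_
  rw [cj_mulF, cj_isCl _ hb, ma_mul]

/-- the sum of the conjugates of an element is a multiple of the class sum -/
theorem tsm_dl {Z : Subgroup A} (hZ : Z ≤ Subgroup.center A) (y : A) :
    tsm Z (dl F y) = ((Z.relIndex (Subgroup.centralizer ({y} : Set A)) : ℕ) : F) •
      clsum F (⊤ : Subgroup A) y := by
  classical
  set X := Subgroup.centralizer ({y} : Set A) with hX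
  have hZX : Z ≤ X := by
    intro z hz
    rw [hX, Subgroup.mem_centralizer_iff]
    intro x hx
    rw [Set.mem_singleton_iff] at hx
    rw [hx]
    exact Subgroup.mem_center_iff.1 (hZ hz) y
  have := Fintype.ofFinite (A ⧸ Z)
  have := Fintype.ofFinite (A ⧸ X)
  have := Fintype.ofFinite (X ⧸ Z.subgroupOf X)
  have hXm : ∀ x, x ∈ X ↔ x * y = y * x := by
    intro x
    rw [hX, Subgroup.mem_centralizer_iff]
    constructor
    · intro h
      exact (h y (Set.mem_singleton y)).symm
    · intro h t ht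
      rw [Set.mem_singleton_iff.1 ht]
      exact h.symm
  funext g
  unfold tsm
  rw [finsum_eq_sum_of_fintype]
  change ∑ q : A ⧸ Z, dl F y (q.out⁻¹ * g * q.out) = _
  have hH : ∀ t : A, ∀ x ∈ X, dl F y ((t * x)⁻¹ * g * (t * x)) = dl F y (t⁻¹ * g * t) := by
    intro t x hx
    unfold dl
    have h1 : (t * x)⁻¹ * g * (t * x) = y ↔ t⁻¹ * g * t = y := by
      have h2 : (t * x)⁻¹ * g * (t * x) = x⁻¹ * (t⁻¹ * g * t) * x := by group
      rw [h2]
      constructor
      · intro h
        have h3 : t⁻¹ * g * t = x * y * x⁻¹ := by rw [← h]; group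
        rw [h3, (hXm x).1 hx, mul_inv_cancel_right]
      · intro h
        rw [h, mul_assoc, ← (hXm x).1 hx, inv_mul_cancel_left]
    by_cases h3 : t⁻¹ * g * t = y
    · rw [if_pos (h1.2 h3), if_pos h3]
    · rw [if_neg (fun h => h3 (h1.1 h)), if_neg h3]
  rw [T8.H17.coset_sum hZX (fun t => dl F y (t⁻¹ * g * t)) (fun t z hz => hH t z (hZX hz))]
  have h1 : ∀ p : A ⧸ X, ∑ x : X ⧸ Z.subgroupOf X,
      dl F y ((p.out * ((x.out : X) : A))⁻¹ * g * (p.out * ((x.out : X) : A))) =
      ((Z.relIndex X : ℕ) : F) * dl F y (p.out⁻¹ * g * p.out) := by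
    intro p
    rw [Finset.sum_congr rfl fun x _ => hH p.out _ x.out.2, Finset.sum_const, nsmul_eq_mul,
      Finset.card_univ]
    congr 2
    rw [Subgroup.relIndex, Subgroup.index, Nat.card_eq_fintype_card]
  rw [Finset.sum_congr rfl fun p _ => h1 p, ← Finset.mul_sum, Pi.smul_apply, smul_eq_mul]
  congr 1
  unfold clsum
  by_cases hg : ∃ q ∈ (⊤ : Subgroup A), g = q * y * q⁻¹
  · rw [if_pos hg]
    obtain ⟨q, -, hq⟩ := hg
    rw [Finset.sum_eq_single (q : A ⧸ X)]
    · obtain ⟨x, hx⟩ := QuotientGroup.mk_out_eq_mul X q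
      rw [hx, hH q x x.2]
      unfold dl
      rw [if_pos]
      rw [hq]; group
    · intro p _ hp
      unfold dl
      rw [if_neg]
      intro h
      apply hp
      rw [← QuotientGroup.out_eq' p, QuotientGroup.eq, hXm]
      have h2 : p.out * y * p.out⁻¹ = q * y * q⁻¹ := by rw [← hq, ← h]; group
      calc p.out⁻¹ * q * y = p.out⁻¹ * (q * y * q⁻¹) * q := by group
        _ = p.out⁻¹ * (p.out * y * p.out⁻¹) * q := by rw [h2]
        _ = y * (p.out⁻¹ * q) := by group
    · intro h
      exact absurd (Finset.mem_univ _) h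
  · rw [if_neg hg]
    apply Finset.sum_eq_zero
    intro p _
    unfold dl
    rw [if_neg]
    intro h
    apply hg
    refine ⟨p.out, Subgroup.mem_top _, ?_⟩
    rw [← h]; group

theorem clsum_isCl (y : A) : IsCl (clsum F (⊤ : Subgroup A) y) := by
  classical
  intro t g
  unfold clsum
  have h : (∃ q ∈ (⊤ : Subgroup A), g * t * g⁻¹ = q * y * q⁻¹) ↔
      ∃ q ∈ (⊤ : Subgroup A), t = q * y * q⁻¹ := by
    constructor
    · rintro ⟨q, -, hq⟩
      refine ⟨g⁻¹ * q, Subgroup.mem_top _, ?_⟩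
      calc t = g⁻¹ * (g * t * g⁻¹) * g := by group
        _ = g⁻¹ * (q * y * q⁻¹) * g := by rw [hq]
        _ = _ := by group
    · rintro ⟨q, -, hq⟩
      refine ⟨g * q, Subgroup.mem_top _, ?_⟩
      rw [hq]; group
  by_cases h' : ∃ q ∈ (⊤ : Subgroup A), t = q * y * q⁻¹
  · rw [if_pos (h.2 h'), if_pos h']
  · rw [if_neg (fun h1 => h' (h.1 h1)), if_neg h']

end abs

attribute [local instance] Ideal.Quotient.field

variable {M : Ideal (integralClosure ℤ ℂ)} [M.IsMaximal] {G : Type} [Group G] [Finite G]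

omit [Finite G] in
theorem rd_dl (x : G) : rd M (dl ℂ x) = dl (FF M) x := by
  funext t
  unfold rd dl
  by_cases h : t = x
  · rw [if_pos h, if_pos h, rr_one]
  · rw [if_neg h, if_neg h, rr_zero]

omit [Finite G] in
theorem dl_RM (x : G) (t : G) : dl ℂ x t ∈ RM M := by
  unfold dl
  by_cases h : t = x
  · rw [if_pos h]; exact (RM M).one_mem
  · rw [if_neg h]; exact (RM M).zero_mem

theorem hat_RM {X : Subgroup G} {b : G → FF M} (hb : Ix X b) (x : G) : hat M X b x ∈ RM M := by
  unfold hat H75.ext0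
  by_cases h : x ∈ X
  · rw [dif_pos h]
    exact ((H25.idm M X (fun t : X => b t) hb.idem).1 _).1
  · rw [dif_neg h]; exact (RM M).zero_mem

theorem rd_hat {X : Subgroup G} {b : G → FF M} (hb : Ix X b) : rd M (hat M X b) = b := by
  funext x
  unfold rd hat H75.ext0
  by_cases h : x ∈ X
  · rw [dif_pos h]
    exact ((H25.idm M X (fun t : X => b t) hb.idem).1 _).2
  · rw [dif_neg h, rr_zero, hb.supp x h]

theorem hat_ix {X : Subgroup G} {b : G → FF M} (hb : Ix X b) : Ix X (hat M X b) := by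
  refine ⟨ext0_supp X _, ?_⟩
  have h : (fun t : X => hat M X b t) = eh M (fun t : X => b t) := by
    funext t
    unfold hat H75.ext0
    rw [dif_pos t.2]
  rw [h]
  exact (H25.idm M X (fun t : X => b t) hb.idem).2.1

theorem hat_res {X : Subgroup G} (b : G → FF M) :
    (fun t : X => hat M X b t) = eh M (fun t : X => b t) := by
  funext t
  unfold hat H75.ext0
  rw [dif_pos t.2]

/-- the defect group of `γ` in `C(V)` -/
theorem tp_c {ℓ : ℕ} [Fact ℓ.Prime] (hM : (ℓ : integralClosure ℤ ℂ) ∈ M) {e : G → FF M}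
    {V : Subgroup G} {γ : G → FF M} (hL : Ld ℓ e V γ) {C : Subgroup G}
    (hC : C = Subgroup.centralizer (V : Set G)) :
    V.subgroupOf C ≤ Subgroup.center C ∧ Tp ℓ (fun t : C => γ t) (V.subgroupOf C) := by
  have hF : GoodF ℓ (FF M) := H50.fld ℓ Fact.out M hM
  have hVC : V ≤ C := by
    intro v hv
    rw [hC, Subgroup.mem_centralizer_iff]
    intro w hw
    exact hL.ab w hw v hv
  have hbx : Bx C γ := by rw [hC]; exact hL.gam
  have hVz : V.subgroupOf C ≤ Subgroup.center C := by
    intro v hv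
    rw [Subgroup.mem_center_iff]
    intro g
    have h1 : (g : G) ∈ Subgroup.centralizer (V : Set G) := by rw [← hC]; exact g.2
    exact Subtype.ext (Subgroup.mem_centralizer_iff.1 h1 v hv).symm
  have hVcard : Nat.card (V.subgroupOf C) = Nat.card V :=
    Nat.card_congr (Subgroup.subgroupOfEquivOfLe hVC).toEquiv
  have hbrcl : IsCl (fun t : C => br V e t) := by
    intro x y
    have h1 : ∀ t : C, br V e t = e t := fun t =>
      H66.br_of_mem (by rw [← hC]; exact t.2)
    have h2 := h1 (y * x * y⁻¹)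
    have h3 := h1 x
    change br V e ((y * x * y⁻¹ : C) : G) = br V e (x : G)
    rw [h2, h3]
    exact hL.blk.1.1 _ _
  have hmul : mulF (fun t : C => br V e t) (fun t : C => γ t) = fun t : C => γ t := by
    have hs : ∀ x, x ∉ C → br V e x = 0 := fun x hx => H66.br_of_not_mem (by rw [← hC]; exact hx)
    rw [← mulF_res C γ hs, hL.und]
  refine ⟨hVz, hL.tp.pg.of_equiv (Subgroup.subgroupOfEquivOfLe hVC).symm, ?_, ?_⟩
  · have hne : (fun t : C => γ t) ≠ 0 := hbx.blk.2.1
    obtain ⟨t, ht⟩ := Function.ne_iff.1 hne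
    refine ⟨t, ?_, ht⟩
    rw [Subgroup.mem_centralizer_iff]
    intro v hv
    exact (Subgroup.mem_center_iff.1 (hVz hv) t).symm
  · intro Q hQ hQg
    have h1 := gd_of_mul hF hbrcl hbx.blk.1.1 hmul hQ hQg
    have h2 : Gd (fun t : C => e t) Q := by
      obtain ⟨g, hg1, hg2⟩ := h1
      refine ⟨g, hg1, ?_⟩
      change br V e (g : G) ≠ 0 at hg2
      rw [H66.br_of_mem (by rw [← hC]; exact g.2)] at hg2
      exact hg2
    have hcard : Nat.card (Q.map C.subtype) = Nat.card Q :=
      (Nat.card_congr (Q.equivMapOfInjective C.subtype C.subtype_injective).toEquiv).symm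
    have h3 := hL.tp.mx _ (hQ.map C.subtype) (gd_map h2)
    rw [hcard] at h3
    rw [hVcard]
    exact h3

open Classical in
theorem yex (omi : T8.OmiStmt) (fmg : FmgStmt) (inx : K9.InxStmt) : YexStmt := by
  intro ℓ _ M _ hM G _ _ e V γ hL W hWV f hf
  have := Fintype.ofFinite G
  have hF : GoodF ℓ (FF M) := H50.fld ℓ Fact.out M hM
  have hab := hL.ab
  have hγ := hL.gam
  have hCH : Subgroup.centralizer (V : Set G) ≤ Subgroup.centralizer (W : Set G) := by
    intro x hx
    rw [Subgroup.mem_centralizer_iff]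
    intro w hw
    exact Subgroup.mem_centralizer_iff.1 hx w (hWV hw)
  have hVC : V ≤ Subgroup.centralizer (V : Set G) := by
    intro v hv
    rw [Subgroup.mem_centralizer_iff]
    intro w hw
    exact hab w hw v hv
  have hVcard : Nat.card (V.subgroupOf (Subgroup.centralizer (V : Set G))) = Nat.card V :=
    Nat.card_congr (Subgroup.subgroupOfEquivOfLe hVC).toEquiv
  obtain ⟨hVz, hTp⟩ := tp_c hM hL rfl
  obtain ⟨-, -, y₀, -, -, hidx, c, hc, hcK⟩ := fmg ℓ M hM _ _ hγ.blk _ hTp
  obtain ⟨κ, hκ⟩ := H41.irrE_ne M hM hγ.blk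
  have := Fintype.ofFinite (Subgroup.centralizer (V : Set G))
  -- the element
  set Y : G → ℂ := mulF (hat M (Subgroup.centralizer (W : Set G)) f)
    (mulF (hat M (Subgroup.centralizer (V : Set G)) γ) (dl ℂ (y₀ : G))) with hY
  have hfI := hat_ix hf.blk.ix
  have hγI := hat_ix hγ.ix
  have hγR := hat_RM (M := M) hγ.ix
  have hfR := hat_RM (M := M) hf.blk.ix
  have hdR := dl_RM (M := M) (y₀ : G)
  have hYR : ∀ g, Y g ∈ RM M :=
    T8.H28.mulF_RM hfR (T8.H28.mulF_RM hγR hdR)
  have hdV : ∀ (K : Type) [Field K], ∀ v ∈ V, cj v (dl K (y₀ : G)) = dl K (y₀ : G) := by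
    intro K _ v hv
    funext x
    unfold cj dl
    have h1 : (y₀ : G) ∈ Subgroup.centralizer (V : Set G) := y₀.2
    have h2 := Subgroup.mem_centralizer_iff.1 h1 v hv
    have h3 : v⁻¹ * x * v = y₀ ↔ x = y₀ := by
      constructor
      · intro h
        have h4 : x = v * y₀ * v⁻¹ := by rw [← h]; group
        rw [h4, h2, mul_inv_cancel_right]
      · rintro rfl
        rw [mul_assoc, ← h2, inv_mul_cancel_left]
    by_cases h4 : x = y₀
    · rw [if_pos (h3.2 h4), if_pos h4]
    · rw [if_neg (fun h => h4 (h3.1 h)), if_neg h4]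
  have hYV : ∀ v ∈ V, cj v Y = Y := by
    intro v hv
    rw [hY, cj_mulF, cj_mulF, hfI.inv (hCH (hVC hv)), hγI.inv (hVC hv), hdV ℂ v hv]
  have hrd : rd M Y = mulF f (mulF γ (dl (FF M) (y₀ : G))) := by
    rw [hY, T8.H28.rd_mulF hfR (T8.H28.mulF_RM hγR hdR), T8.H28.rd_mulF hγR hdR,
      rd_hat hf.blk.ix, rd_hat hγ.ix, rd_dl]
  have hfV : ∀ v ∈ V, cj v f = f := fun v hv => hf.blk.ix.inv (hCH (hVC hv))
  have hγdV : ∀ v ∈ V, cj v (mulF γ (dl (FF M) (y₀ : G))) = mulF γ (dl (FF M) (y₀ : G)) := by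
    intro v hv
    rw [cj_mulF, hγ.ix.inv (hVC hv), hdV (FF M) v hv]
  have hdsupp : ∀ x, x ∉ Subgroup.centralizer (V : Set G) → dl (FF M) (y₀ : G) x = 0 := by
    intro x hx
    unfold dl
    rw [if_neg]
    rintro rfl
    exact hx y₀.2
  have hγds := mulF_supp (Subgroup.centralizer (V : Set G)) hγ.supp hdsupp
  have hbrγd : br V (mulF γ (dl (FF M) (y₀ : G))) = mulF γ (dl (FF M) (y₀ : G)) := by
    funext x
    by_cases hx : x ∈ Subgroup.centralizer (V : Set G)
    · rw [H66.br_of_mem hx]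
    · rw [H66.br_of_not_mem hx, hγds x hx]
  have hbr : br V (rd M Y) = mulF γ (dl (FF M) (y₀ : G)) := by
    rw [hrd, br_mulF H74.orb hF hL.tp.pg hfV hγdV, hbrγd, ← mulF_assoc, hf.gam]
  have hcond : mulF (br V (rd M Y)) γ = br V (rd M Y) := by
    rw [hbr, mulF_assoc, dl_move, hγ.ix.inv y₀.2, ← mulF_assoc, hγ.mul]
  have hO := omi ℓ M hM G e V γ hL Y hYR (fun v hv => (cj_eq_iff v Y).1 (hYV v hv)) hcond
  -- the number in `C(V)`
  have hiV' : ∀ c ∈ V.subgroupOf (Subgroup.centralizer (V : Set G)),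
      ∀ g : (Subgroup.centralizer (V : Set G)),
        Y ((c * g * c⁻¹ : (Subgroup.centralizer (V : Set G))) : G) = Y (g : G) := by
    intro c hc g
    exact (cj_eq_iff _ Y).1 (hYV _ hc) g
  have hz2 := H65.zet_cl (C := V.subgroupOf (Subgroup.centralizer (V : Set G)))
    (w := fun t : (Subgroup.centralizer (V : Set G)) => Y (t : G)) hiV'
  have hzR2 : ∀ g, H65.zet (V.subgroupOf (Subgroup.centralizer (V : Set G)))
      (fun t : (Subgroup.centralizer (V : Set G)) => Y (t : G)) g ∈ RM M := fun g =>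
    Subring.sum_mem _ fun q _ => hYR _
  have k2 := H65.om_RM (M := M) hz2 hzR2 hκ.1
  rw [H65.zet_om hκ.1, hVcard] at k2
  have htr2 : (fun g => rr M (H65.zet (V.subgroupOf (Subgroup.centralizer (V : Set G)))
      (fun t : (Subgroup.centralizer (V : Set G)) => Y (t : G)) g)) =
      tsm (V.subgroupOf (Subgroup.centralizer (V : Set G)))
        (fun t : (Subgroup.centralizer (V : Set G)) => rd M Y (t : G)) := by
    funext g
    unfold H65.zet tsm
    rw [rr_sum _ _ fun q _ => hYR _, finsum_eq_sum_of_fintype]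
    exact T8.H17.sum_any _ _ _ _ fun q => rfl
  have hres : (fun t : (Subgroup.centralizer (V : Set G)) => rd M Y (t : G)) =
      mulF (fun t : (Subgroup.centralizer (V : Set G)) => γ t) (dl (FF M) y₀) := by
    have h1 : (fun t : (Subgroup.centralizer (V : Set G)) => rd M Y (t : G)) =
        fun t : (Subgroup.centralizer (V : Set G)) => mulF γ (dl (FF M) (y₀ : G)) t := by
      funext t
      rw [← hbr, H66.br_of_mem t.2]
    rw [h1, mulF_res (Subgroup.centralizer (V : Set G)) _ hγ.supp]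
    congr 1
    funext t
    unfold dl
    by_cases h : t = y₀
    · rw [if_pos h, if_pos (congrArg Subtype.val h)]
    · rw [if_neg h, if_neg (fun h' => h (Subtype.ext h'))]
  rw [htr2, hres, tsm_mul_cl hγ.blk.1.1, tsm_dl hVz] at k2
  have hlamκ := H50.isChar_res (M := M) hκ.1
  have hK := clsum_isCl (F := FF M) y₀
  have hγcl : IsCl (fun x : (Subgroup.centralizer (V : Set G)) => γ x) := hγ.blk.1.1
  have hγ1 : res M (fun x : (Subgroup.centralizer (V : Set G)) => γ x) κ = 1 := hκ.2
  have hKne : res M (clsum (FF M) (⊤ : Subgroup (Subgroup.centralizer (V : Set G))) y₀) κ ≠ 0 := by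
    intro h0
    have hcKcl : IsCl (mulF c (clsum (FF M) (⊤ : Subgroup (Subgroup.centralizer (V : Set G))) y₀)) :=
      H50.isCl_mulF hc hK
    have h1 := hlamκ.mul _ _ hcKcl hγcl
    have h2 := hlamκ.mul _ _ hc hK
    rw [hcK, hγ1, h2, h0, mul_zero, zero_mul] at h1
    exact one_ne_zero h1
  have hidx' : (((V.subgroupOf (Subgroup.centralizer (V : Set G))).relIndex
      (Subgroup.centralizer ({y₀} : Set (Subgroup.centralizer (V : Set G)))) : ℕ) : FF M) ≠ 0 := by
    have := hF.char
    intro h0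
    exact hidx ((CharP.cast_eq_zero_iff (FF M) ℓ _).1 h0)
  have hix : (ix V γ : FF M) ≠ 0 := by
    have := hF.char
    intro h0
    exact inx ℓ M hM G e hL.blk V hL.tp hab γ hγ.supp hγ.blk hL.und
      ((CharP.cast_eq_zero_iff (FF M) ℓ _).1 h0)
  have hsm : IsCl (((V.subgroupOf (Subgroup.centralizer (V : Set G))).relIndex
      (Subgroup.centralizer ({y₀} : Set (Subgroup.centralizer (V : Set G)))) : FF M) •
      clsum (FF M) (⊤ : Subgroup (Subgroup.centralizer (V : Set G))) y₀) := fun x y =>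
    congrArg (_ * ·) (hK x y)
  have h2 : res M (mulF (fun t : (Subgroup.centralizer (V : Set G)) => γ t)
      (((V.subgroupOf (Subgroup.centralizer (V : Set G))).relIndex
      (Subgroup.centralizer ({y₀} : Set (Subgroup.centralizer (V : Set G)))) : FF M) •
      clsum (FF M) (⊤ : Subgroup (Subgroup.centralizer (V : Set G))) y₀)) κ ≠ 0 := by
    have h3 := hlamκ.mul _ _ hγcl hsm
    have h4 := hlamκ.smul ((V.subgroupOf (Subgroup.centralizer (V : Set G))).relIndex
      (Subgroup.centralizer ({y₀} : Set (Subgroup.centralizer (V : Set G)))) : FF M) _ hK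
    rw [h3, hγ1, one_mul, h4]
    exact mul_ne_zero hidx' hKne
  have h3 : rr M (Nat.card (Subgroup.centralizer (V : Set G)) *
      (∑ᶠ t : (Subgroup.centralizer (V : Set G)), Y t * κ t) / (Nat.card V * κ 1)) ≠ 0 := by
    have h4 := k2.2
    unfold chv at h4
    rw [h4]
    exact h2
  -- the restriction of `Y`
  have hYs : ∀ x, x ∉ Subgroup.centralizer (W : Set G) → Y x = 0 := by
    have hd : ∀ x, x ∉ Subgroup.centralizer (V : Set G) → dl ℂ (y₀ : G) x = 0 := by
      intro x hx
      unfold dl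
      rw [if_neg]
      rintro rfl
      exact hx y₀.2
    have h1 := mulF_supp (Subgroup.centralizer (V : Set G)) hγI.supp hd
    exact mulF_supp (Subgroup.centralizer (W : Set G)) hfI.supp (fun x hx => h1 x (fun h => hx (hCH h)))
  refine ⟨fun t => Y t, fun x => hYR x, fun v hv x => (cj_eq_iff _ Y).1 (hYV _ hv) x, ?_, ?_⟩
  · have h1 : (fun t : (Subgroup.centralizer (W : Set G)) => Y t) =
        mulF (eh M (fun t : (Subgroup.centralizer (W : Set G)) => f t))
          (fun t : (Subgroup.centralizer (W : Set G)) =>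
            mulF (hat M (Subgroup.centralizer (V : Set G)) γ) (dl ℂ (y₀ : G)) t) := by
      rw [hY, mulF_res (Subgroup.centralizer (W : Set G)) _ hfI.supp, hat_res]
    have h2 := (H25.idm M _ (fun t : (Subgroup.centralizer (W : Set G)) => f t) hf.blk.blk.1).2.1
    rw [h1, ← mulF_assoc, h2.2]
  · intro χ hχ
    have h1 := hO χ hχ κ hκ
    have h4 : chv Y χ = ∑ᶠ x : (Subgroup.centralizer (W : Set G)), Y x * χ x := by
      unfold chv
      exact sum_sub (Subgroup.centralizer (W : Set G)) (fun x => Y x * χ x)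
        (fun x hx => by rw [hYs x hx, zero_mul])
    rw [h4] at h1
    refine ⟨h1.1, ?_⟩
    rw [h1.2.2]
    exact mul_ne_zero hix h3

end Pool.Agent.PP.T6.H35
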